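import Pool.Agent.H.MP_f44585_an.E

open Finset Filter Topology

namespace Pool.Agent.Results.MP_f44585_an.AllBases

theorem result : ∀ r : ℕ, 2 ≤ r → ∀ b : ℝ, Irrational b → ∃ y : ℝ,
    Tendsto (fun N : ℕ => (((range N).filter fun i =>
      ⌊y * (r : ℝ) ^ (i + 1)⌋ % (r : ℤ) ≠ 0).card : ℝ) / N) atTop (𝓝 0) ∧
    ∀ (k : ℕ) (w : Fin k → Fin r), Tendsto (fun N : ℕ => (((range N).filter fun i => ∀ j : Fin k,
      ⌊b * y * (r : ℝ) ^ (i + (j : ℕ) + 1)⌋ % (r : ℤ) = ((w j : ℕ) : ℤ)).card : ℝ) / N)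
      atTop (𝓝 (1 / (r : ℝ) ^ k)) := by
  intro r hr b hb
  obtain ⟨d, h1, h2⟩ := H.MP_f44585_an.main hr (F := fun y => b * y) (F' := fun _ => b)
    (fun y _ => by simpa using (hasStrictDerivAt_id y).const_mul b) (by simp [hb])
  exact ⟨_, by simpa using H.MP_f44585_an.sparse hr 0 h1, H.MP_f44585_an.normal hr h2⟩

end Pool.Agent.Results.MP_f44585_an.AllBases
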